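import Mathlib
import Pool.Agent.Helper273.Sim

/-!
# One catalyst is enough: catalytic P systems with one catalyst generate all r.e. sets of numbers

Idea. All working objects evolve at every moment without the catalyst, in a cycle of length
`5 κ + 1`, and a unit of counter number `j` can meet the catalyst only at moment `5 j` of the
cycle; so counters can be decreased one by one, and a handshake with the control (control and
product of the decrease test each other by objects `f` which have no rule without the catalyst)
checks that the decrease took place. In a first phase of `B` rounds the system creates `B` units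
of each complementary register and of a test counter, and `B` objects `be`, each of which puts
four units of a budget counter in each round, until it decides to become an object `f`. An object
`f` present at the end of the first phase is detected, since an idle catalyst must serve it. Hence
the budget is at least `2 B ^ 2`, with equality only if all `be` stop at once. Zero tests of
registers bounded by `B` cost at most `2 B` budget units and one test unit, and exactly `2 B` only
if the tested register is empty; since all units must be used up, all zero tests are correct.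
-/

set_option autoImplicit false

namespace Pool.Agent.Results.MP_280e70_lc.OneCatalystUniversal

/-! ## P systems -/

/-- Targets of produced objects. -/
inductive Tar
  /-- the object stays in the region -/
  | here
  /-- the object goes to the surrounding region (to the environment from the skin) -/
  | out
  /-- the object enters a nondeterministically chosen child membrane -/
  | inn

/-- A rule: `cat = none` is the noncooperative rule `lhs → rhs`, and `cat = some c` is the
catalytic rule `c lhs → c rhs`. The objects of `rhs` carry targets. -/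
structure Rule (O : Type) where
  cat : Option O
  lhs : O
  rhs : Multiset (O × Tar)

/-- The catalyst used by a rule, which stays in its region (nothing for a noncooperative rule). -/
def Rule.catalyst {O : Type} (r : Rule O) : Multiset O :=
  match r.cat with
  | none => 0
  | some c => {c}

/-- The left-hand side of a rule, as a multiset: the objects occupied by one use of the rule. -/
def Rule.left {O : Type} (r : Rule O) : Multiset O := r.catalyst + {r.lhs}

open Classical in
/-- The objects with target `t` on the right-hand side. -/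
noncomputable def Rule.made {O : Type} (r : Rule O) (t : Tar) : Multiset O :=
  (r.rhs.filter fun p => p.2 = t).map Prod.fst

/-- Total left-hand side of a multiset of rules: the objects occupied by its use. -/
def left {O : Type} (U : Multiset (Rule O)) : Multiset O := (U.map Rule.left).sum

/-- The catalysts used by a multiset of rules. -/
def cats {O : Type} (U : Multiset (Rule O)) : Multiset O := (U.map Rule.catalyst).sum

/-- The objects with target `t` produced by a multiset of rules. -/
noncomputable def made {O : Type} (U : Multiset (Rule O)) (t : Tar) : Multiset O :=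
  (U.map fun r => r.made t).sum

/-- A cell-like P system with noncooperative and catalytic rules. -/
structure PSystem where
  /-- the alphabet of objects -/
  Obj : Type
  finObj : Finite Obj
  /-- the catalysts -/
  Cat : Set Obj
  /-- the membranes, identified with their regions -/
  Mem : Type
  finMem : Fintype Mem
  /-- the root of the membrane structure -/
  skin : Mem
  /-- the membrane immediately outside -/
  parent : Mem → Option Mem
  parent_eq_none : ∀ h, parent h = none ↔ h = skin
  /-- every membrane lies (directly or not) inside the skin -/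
  nested : ∀ h, ∃ n, (fun x : Option Mem => x.bind parent)^[n] (some h) = none
  /-- the initial contents of the regions -/
  init : Mem → Multiset Obj
  /-- the rules of the regions -/
  rules : Mem → Set (Rule Obj)
  finRules : ∀ h, (rules h).Finite
  /-- left- and right-hand sides (apart from the catalyst of a catalytic rule) have no catalysts -/
  rules_ok : ∀ h, ∀ r ∈ rules h,
    r.lhs ∉ Cat ∧ (∀ c, r.cat = some c → c ∈ Cat) ∧ ∀ p ∈ r.rhs, p.1 ∉ Cat
  /-- the output region; `none` is the environment -/
  iout : Option Mem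
  iout_elementary : ∀ h, iout = some h → ∀ h', parent h' ≠ some h

attribute [instance] PSystem.finObj PSystem.finMem

namespace PSystem

variable (P : PSystem)

/-- The degree: the number of membranes. -/
def degree : ℕ := Fintype.card P.Mem

open Classical in
/-- The number of catalyst objects in the initial configuration. -/
noncomputable def numCat : ℕ := ∑ h, (P.init h).countP (· ∈ P.Cat)

/-- A configuration: the contents of the regions, and the objects sent to the environment. -/
structure Config where
  reg : P.Mem → Multiset P.Obj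
  env : Multiset P.Obj

/-- The rule `r` can be used in region `h`: it is a rule of `h`, and if it has a target `in`, the
membrane `h` has a child. -/
def Usable (h : P.Mem) (r : Rule P.Obj) : Prop :=
  r ∈ P.rules h ∧ ((∃ p ∈ r.rhs, p.2 = Tar.inn) → ∃ h', P.parent h' = some h)

open Classical in
/-- One step. In each region `h` the multiset `U h` of usable rules is used, `rest h` is the part
of the contents not occupied by `U h`, and `U h` is maximal: no further use of a usable rule can
be added. The objects with target `in` produced in `h` are distributed among the children of `h`,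
`down h'` being the multiset of those that enter `h'`. -/
def Step (Γ Δ : P.Config) : Prop :=
  ∃ (U : P.Mem → Multiset (Rule P.Obj)) (rest down : P.Mem → Multiset P.Obj),
    (∀ h, ∀ r ∈ U h, P.Usable h r) ∧
    (∀ h, Γ.reg h = left (U h) + rest h) ∧
    (∀ h, ∀ r, P.Usable h r → ¬ r.left ≤ rest h) ∧
    down P.skin = 0 ∧
    (∀ h, (∑ h', if P.parent h' = some h then down h' else 0) = made (U h) Tar.inn) ∧
    (∀ h, Δ.reg h = rest h + cats (U h) + made (U h) Tar.here +
      (∑ h', if P.parent h' = some h then made (U h') Tar.out else 0) + down h) ∧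
    Δ.env = Γ.env + made (U P.skin) Tar.out

/-- A configuration is halting if no rule is applicable. -/
def Halting (Γ : P.Config) : Prop := ∀ h, ∀ r, P.Usable h r → ¬ r.left ≤ Γ.reg h

/-- The initial configuration. -/
def start : P.Config := ⟨P.init, 0⟩

/-- The result read from a configuration. -/
def value (Γ : P.Config) : ℕ :=
  match P.iout with
  | some h => Multiset.card (Γ.reg h)
  | none => Multiset.card Γ.env

/-- The set of results of all successful computations. -/
def N : Set ℕ := {n | ∃ H, Relation.ReflTransGen P.Step P.start H ∧ P.Halting H ∧ P.value H = n}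

end PSystem

/-! ## The system of a counter system -/

open Pool.Agent.Helper273.Sim Pool.Agent.Helper273.Budget

variable (D : Data)

instance finite_ph {T : Type} [Finite T] : Finite (Ph T) := by
  have : Function.Injective (fun p : Ph T => match p with
      | .gen => (Sum.inl true : Bool ⊕ T)
      | .tst => Sum.inl false
      | .main t => Sum.inr t) := by
    intro p q h
    cases p <;> cases q <;> simp_all
  exact Finite.of_injective _ this

instance finite_ob {P K : Type} {m : ℕ} [Finite P] [Finite K] : Finite (Ob P K m) := by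
  have : Function.Injective (fun p : Ob P K m => match p with
      | .cat => (Sum.inl 0 : Fin 8 ⊕ (K × Fin (m + 1)) ⊕ Fin (m + 1) ⊕ (P × Fin (m + 1)))
      | .trap => Sum.inl 1
      | .o => Sum.inl 2
      | .f => Sum.inl 3
      | .g => Sum.inl 4
      | .e1 => Sum.inl 5
      | .e2 => Sum.inl 6
      | .e3 => Sum.inl 7
      | .u k i => Sum.inr (Sum.inl (k, i))
      | .be i => Sum.inr (Sum.inr (Sum.inl i))
      | .ct p i => Sum.inr (Sum.inr (Sum.inr (p, i)))) := by
    intro p q h
    cases p <;> cases q <;> simp_all
  exact Finite.of_injective _ this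

/-- right-hand side with targets -/
noncomputable def tg (v : Multiset D.O) : Multiset (D.O × Tar) :=
  v.map fun x => (x, if x = .o then Tar.out else Tar.here)

theorem N_finite (a : D.O) : (D.N a).Finite := by
  cases a with
  | be i =>
    simp only [Data.N]
    split_ifs
    · exact Set.toFinite _
    · exact Set.finite_singleton _
  | ct p i =>
    simp only [Data.N]
    split <;> exact Set.finite_singleton _
  | _ => first | exact Set.finite_empty | exact Set.finite_singleton _

theorem S_finite (a : D.O) : (D.S a).Finite := by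
  cases a with
  | u k i => exact (Set.finite_singleton {Ob.e1}).subset fun v hv => hv.2
  | ct p i =>
    refine ((Set.finite_singleton ({.ct p (i + 1)} : Multiset D.O)).union
      ((Set.finite_range fun p' : Ph D.T => (.ct p' 0 ::ₘ D.emit p : Multiset D.O)).union
        (Set.finite_singleton (D.emit p)))).subset ?_
    rintro v ⟨_, ⟨_, rfl⟩ | ⟨_, ⟨p', _, rfl⟩ | ⟨_, rfl⟩⟩⟩
    · exact Or.inl rfl
    · exact Or.inr (Or.inl ⟨p', rfl⟩)
    · exact Or.inr (Or.inr rfl)
  | _ => first | exact Set.finite_empty | exact Set.finite_singleton _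

theorem cat_notMem_emit (p : Ph D.T) : (.cat : D.O) ∉ D.emit p := by
  unfold Data.emit
  simp only [Multiset.mem_add, D.mem_U, Multiset.mem_nsmul, Multiset.mem_singleton]
  rintro ((⟨k, h, _⟩ | ⟨_, h⟩) | ⟨_, h⟩) <;> cases h

theorem cat_notMem_N {a : D.O} {v : Multiset D.O} (hv : v ∈ D.N a) : (.cat : D.O) ∉ v := by
  cases a with
  | be i =>
    simp only [Data.N] at hv
    split_ifs at hv
    · rcases hv with rfl | hv
      · simp [Multiset.mem_nsmul]
      · rw [Set.mem_singleton_iff] at hv
        subst hv; simp
    · rw [Set.mem_singleton_iff] at hv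
      subst hv; simp
  | ct p i =>
    simp only [Data.N] at hv
    split at hv <;>
    · rw [Set.mem_singleton_iff] at hv
      subst hv; simp
  | cat => exact absurd hv (Set.notMem_empty _)
  | o => exact absurd hv (Set.notMem_empty _)
  | f => exact absurd hv (Set.notMem_empty _)
  | _ =>
    simp only [Data.N, Set.mem_singleton_iff] at hv
    subst hv; simp

theorem cat_notMem_S {a : D.O} {v : Multiset D.O} (hv : v ∈ D.S a) : (.cat : D.O) ∉ v := by
  cases a with
  | u k i =>
    obtain ⟨_, rfl⟩ := hv
    simp
  | ct p i =>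
    obtain ⟨_, ⟨_, rfl⟩ | ⟨_, ⟨p', _, rfl⟩ | ⟨_, rfl⟩⟩⟩ := hv
    · simp
    · rw [Multiset.mem_cons, not_or]
      exact ⟨by simp, cat_notMem_emit D p⟩
    · exact cat_notMem_emit D p
  | cat => exact absurd hv (Set.notMem_empty _)
  | trap => exact absurd hv (Set.notMem_empty _)
  | o => exact absurd hv (Set.notMem_empty _)
  | e2 => exact absurd hv (Set.notMem_empty _)
  | be i => exact absurd hv (Set.notMem_empty _)
  | _ =>
    simp only [Data.S, Set.mem_singleton_iff] at hv
    subst hv; simp

/-- the rules -/
def rls : Set (Rule D.O) :=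
  {r | (r.cat = none ∧ ∃ v ∈ D.N r.lhs, r.rhs = tg D v) ∨
    (r.cat = some .cat ∧ ∃ v ∈ D.S r.lhs, r.rhs = tg D v)}

theorem rls_finite : (rls D).Finite := by
  have h1 : (⋃ a, (fun v => (⟨none, a, tg D v⟩ : Rule D.O)) '' D.N a).Finite :=
    Set.finite_iUnion fun a => (N_finite D a).image _
  have h2 : (⋃ a, (fun v => (⟨some .cat, a, tg D v⟩ : Rule D.O)) '' D.S a).Finite :=
    Set.finite_iUnion fun a => (S_finite D a).image _
  refine (h1.union h2).subset ?_
  rintro ⟨c, a, w⟩ (⟨h1, v, h2, h3⟩ | ⟨h1, v, h2, h3⟩)
  · refine Or.inl (Set.mem_iUnion.2 ⟨a, v, h2, ?_⟩)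
    simp only at h1 h3
    rw [h1, h3]
  · refine Or.inr (Set.mem_iUnion.2 ⟨a, v, h2, ?_⟩)
    simp only at h1 h3
    rw [h1, h3]

/-- the P system with one membrane and one catalyst -/
noncomputable def psys : PSystem where
  Obj := D.O
  finObj := inferInstance
  Cat := {.cat}
  Mem := Unit
  finMem := inferInstance
  skin := ()
  parent _ := none
  parent_eq_none _ := by simp
  nested _ := ⟨1, rfl⟩
  init _ := .cat ::ₘ D.start
  rules _ := rls D
  finRules _ := rls_finite D
  rules_ok := by
    rintro _ r (⟨h1, v, h2, h3⟩ | ⟨h1, v, h2, h3⟩)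
    · refine ⟨?_, ?_, ?_⟩
      · intro h
        rw [Set.mem_singleton_iff] at h
        rw [h] at h2
        exact absurd h2 (Set.notMem_empty _)
      · intro c hc
        rw [h1] at hc
        cases hc
      · intro p hp h
        rw [h3] at hp
        obtain ⟨x, hx, rfl⟩ := Multiset.mem_map.1 hp
        rw [Set.mem_singleton_iff] at h
        simp only at h
        subst h
        exact cat_notMem_N D h2 hx
    · refine ⟨?_, ?_, ?_⟩
      · intro h
        rw [Set.mem_singleton_iff] at h
        rw [h] at h2
        exact absurd h2 (Set.notMem_empty _)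
      · intro c hc
        rw [h1] at hc
        injection hc with hc
        exact hc.symm
      · intro p hp h
        rw [h3] at hp
        obtain ⟨x, hx, rfl⟩ := Multiset.mem_map.1 hp
        rw [Set.mem_singleton_iff] at h
        simp only at h
        subst h
        exact cat_notMem_S D h2 hx
  iout := none
  iout_elementary _ h := by cases h

/-! ## Comparison with the simple semantics -/

open PSystem

theorem made_here {r : Rule D.O} {v : Multiset D.O} (h : r.rhs = tg D v) :
    r.made .here = v.filter (· ≠ .o) := by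
  classical
  unfold Rule.made
  rw [h, tg, Multiset.filter_map, Multiset.map_map]
  simp only [Function.comp_def, Multiset.map_id']
  refine Multiset.filter_congr fun x _ => ?_
  by_cases hx : x = .o <;> simp [hx]

theorem made_out {r : Rule D.O} {v : Multiset D.O} (h : r.rhs = tg D v) :
    r.made .out = v.filter (· = .o) := by
  classical
  unfold Rule.made
  rw [h, tg, Multiset.filter_map, Multiset.map_map]
  simp only [Function.comp_def, Multiset.map_id']
  refine Multiset.filter_congr fun x _ => ?_
  by_cases hx : x = .o <;> simp [hx]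

theorem made_inn {r : Rule D.O} {v : Multiset D.O} (h : r.rhs = tg D v) :
    r.made .inn = 0 := by
  classical
  unfold Rule.made
  rw [h, tg, Multiset.filter_map, Multiset.map_map]
  rw [Multiset.filter_eq_nil.2, Multiset.map_zero]
  intro x _
  simp only [Function.comp_def]
  by_cases hx : x = .o <;> simp [hx]

theorem no_inn {r : Rule D.O} (hr : r ∈ rls D) : ¬ ∃ p ∈ r.rhs, p.2 = Tar.inn := by
  rintro ⟨p, hp, hpi⟩
  obtain ⟨v, hv⟩ : ∃ v, r.rhs = tg D v := by
    rcases hr with ⟨_, v, _, h⟩ | ⟨_, v, _, h⟩ <;> exact ⟨v, h⟩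
  rw [hv] at hp
  obtain ⟨x, _, rfl⟩ := Multiset.mem_map.1 hp
  simp only at hpi
  split_ifs at hpi

/-- one step of a system with one region -/
def Step1 (reg env reg' env' : Multiset D.O) : Prop :=
  ∃ (U : Multiset (Rule D.O)) (rest : Multiset D.O),
    (∀ r ∈ U, r ∈ rls D) ∧ reg = left U + rest ∧ (∀ r ∈ rls D, ¬ r.left ≤ rest) ∧
    0 = made U Tar.inn ∧ reg' = rest + cats U + made U Tar.here ∧ env' = env + made U Tar.out

/-- a configuration -/
def mkc (A B : Multiset D.O) : (psys D).Config := ⟨fun _ => A, B⟩

theorem step1_iff (A B A' B' : Multiset D.O) :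
    (psys D).Step (mkc D A B) (mkc D A' B') ↔ Step1 D A B A' B' := by
  constructor
  · rintro ⟨U, rest, down, h1, h2, h3, h4, h5, h6, h7⟩
    refine ⟨U (), rest (), fun r hr => (h1 () r hr).1, h2 (), ?_, ?_, ?_, h7⟩
    · intro r hr
      exact h3 () r ⟨hr, fun h => absurd h (no_inn D hr)⟩
    · have h8 := h5 ()
      rw [Finset.sum_eq_zero (fun x _ => if_neg (by simp [psys]))] at h8
      exact h8
    · have h8 := h6 ()
      rw [Finset.sum_eq_zero (fun x _ => if_neg (by simp [psys]))] at h8
      have h9 : down () = 0 := h4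
      rw [h9, add_zero, add_zero] at h8
      exact h8
  · rintro ⟨U, rest, h1, h2, h3, h4, h5, h6⟩
    refine ⟨fun _ => U, fun _ => rest, fun _ => 0, ?_, fun _ => h2, ?_, rfl, ?_, ?_, h6⟩
    · intro _ r hr
      exact ⟨h1 r hr, fun h => absurd h (no_inn D (h1 r hr))⟩
    · intro _ r hr
      exact h3 r hr.1
    · intro _
      rw [Finset.sum_eq_zero (fun x _ => if_neg (by simp [psys]))]
      exact h4
    · intro _
      rw [Finset.sum_eq_zero (fun x _ => if_neg (by simp [psys]))]
      have h9 : (mkc D A' B').reg () = rest + cats U + made U Tar.here := h5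
      simp only [add_zero]
      exact h9

/-- rules without catalyst -/
def NC (r : Rule D.O) : Prop := r.cat = none ∧ ∃ v ∈ D.N r.lhs, r.rhs = tg D v

/-- catalytic rules -/
def CC (r : Rule D.O) : Prop := r.cat = some .cat ∧ ∃ v ∈ D.S r.lhs, r.rhs = tg D v

theorem left_cons (r : Rule D.O) (U : Multiset (Rule D.O)) :
    left (r ::ₘ U) = r.left + left U := by simp [left]

theorem cats_cons (r : Rule D.O) (U : Multiset (Rule D.O)) :
    cats (r ::ₘ U) = r.catalyst + cats U := by simp [cats]

theorem made_cons (r : Rule D.O) (U : Multiset (Rule D.O)) (t : Tar) :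
    made (r ::ₘ U) t = r.made t + made U t := by simp [made]

theorem fwd (U : Multiset (Rule D.O)) (hU : ∀ r ∈ U, NC D r) :
    left U = U.map Rule.lhs ∧ cats U = 0 ∧
      made U .inn = 0 ∧ ∃ X, Ev D.N (U.map Rule.lhs) X ∧ .cat ∉ X ∧
      made U .here = X.filter (· ≠ .o) ∧
      made U .out = X.filter (· = .o) := by
  induction U using Multiset.induction_on with
  | empty =>
    refine ⟨rfl, rfl, rfl, 0, ?_, Multiset.notMem_zero _, rfl, rfl⟩
    rw [Multiset.map_zero, ev_zero]
  | cons r U ih =>
    obtain ⟨h1, h2, h3, X, h4, h5, h6, h7⟩ := ih fun r hr => hU r (Multiset.mem_cons_of_mem hr)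
    obtain ⟨h8, v, h9, h10⟩ := hU r (Multiset.mem_cons_self _ _)
    refine ⟨?_, ?_, ?_, v + X, ?_, ?_, ?_, ?_⟩
    · rw [left_cons, h1, Multiset.map_cons]
      simp [Rule.left, Rule.catalyst, h8]
    · rw [cats_cons, h2]
      simp [Rule.catalyst, h8]
    · rw [made_cons, h3, made_inn D h10, add_zero]
    · rw [Multiset.map_cons, ev_cons]
      exact ⟨v, X, Or.inl h9, h4, rfl⟩
    · rw [Multiset.mem_add, not_or]
      exact ⟨cat_notMem_N D h9, h5⟩
    · rw [made_cons, h6, made_here D h10, Multiset.filter_add]
    · rw [made_cons, h7, made_out D h10, Multiset.filter_add]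

theorem bwd {A : Multiset D.O} : ∀ {X : Multiset D.O}, Ev D.N A X → .cat ∉ A →
    ∃ (U : Multiset (Rule D.O)) (R : Multiset D.O), (∀ r ∈ U, NC D r) ∧
      A = U.map Rule.lhs + R ∧ (∀ a ∈ R, D.N a = ∅) ∧ .cat ∉ X ∧
      X.filter (· ≠ .o) = made U .here + R.filter (· ≠ .o) ∧
      X.filter (· = .o) = made U .out + R.filter (· = .o) := by
  induction A using Multiset.induction_on with
  | empty =>
    intro X h _
    rw [ev_zero] at h
    subst h
    exact ⟨0, 0, by simp, by simp, by simp, by simp, by simp [made], by simp [made]⟩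
  | cons a A ih =>
    intro X h hc
    obtain ⟨v, X', hv, hE, rfl⟩ := ev_cons.1 h
    rw [Multiset.mem_cons, not_or] at hc
    obtain ⟨U, R, h1, h2, h3, h4, h5, h6⟩ := ih hE hc.2
    rcases hv with hv | ⟨hv, rfl⟩
    · refine ⟨⟨none, a, tg D v⟩ ::ₘ U, R, ?_, ?_, h3, ?_, ?_, ?_⟩
      · intro r hr
        rcases Multiset.mem_cons.1 hr with rfl | hr
        · exact ⟨rfl, v, hv, rfl⟩
        · exact h1 r hr
      · rw [Multiset.map_cons, Multiset.cons_add, ← h2]
      · rw [Multiset.mem_add, not_or]
        exact ⟨cat_notMem_N D hv, h4⟩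
      · rw [made_cons, made_here D (v := v) rfl, Multiset.filter_add, h5, add_assoc]
      · rw [made_cons, made_out D (v := v) rfl, Multiset.filter_add, h6, add_assoc]
    · refine ⟨U, a ::ₘ R, h1, ?_, ?_, ?_, ?_, ?_⟩
      · rw [h2, Multiset.add_cons]
      · intro b hb
        rcases Multiset.mem_cons.1 hb with rfl | hb
        · exact hv
        · exact h3 b hb
      · rw [Multiset.mem_add, not_or]
        exact ⟨by simpa using hc.1, h4⟩
      · rw [Multiset.filter_add, h5, ← Multiset.singleton_add a R, Multiset.filter_add]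
        abel
      · rw [Multiset.filter_add, h6, ← Multiset.singleton_add a R, Multiset.filter_add]
        abel

theorem nc_mem {r : Rule D.O} (h : NC D r) : r ∈ rls D := Or.inl h

theorem cc_mem {r : Rule D.O} (h : CC D r) : r ∈ rls D := Or.inr h

theorem lhs_ne_cat {r : Rule D.O} (h : r ∈ rls D) : r.lhs ≠ .cat := by
  intro h1
  rcases h with ⟨_, v, h2, _⟩ | ⟨_, v, h2, _⟩ <;>
  · rw [h1] at h2
    exact absurd h2 (Set.notMem_empty _)

theorem lhs_ne_o {r : Rule D.O} (h : r ∈ rls D) : r.lhs ≠ .o := by
  intro h1
  rcases h with ⟨_, v, h2, _⟩ | ⟨_, v, h2, _⟩ <;>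
  · rw [h1] at h2
    exact absurd h2 (Set.notMem_empty _)

theorem filter_lhs {U : Multiset (Rule D.O)} (hU : ∀ r ∈ U, r ∈ rls D) :
    (U.map Rule.lhs).filter (· ≠ .o) = U.map Rule.lhs ∧
    (U.map Rule.lhs).filter (· = .o) = 0 := by
  constructor
  · rw [Multiset.filter_eq_self]
    intro a ha
    obtain ⟨r, hr, rfl⟩ := Multiset.mem_map.1 ha
    exact lhs_ne_o D (hU r hr)
  · rw [Multiset.filter_eq_nil]
    intro a ha
    obtain ⟨r, hr, rfl⟩ := Multiset.mem_map.1 ha
    exact lhs_ne_o D (hU r hr)

theorem cat_notMem_lhs {U : Multiset (Rule D.O)} (hU : ∀ r ∈ U, r ∈ rls D) :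
    .cat ∉ U.map Rule.lhs := by
  intro ha
  obtain ⟨r, hr, h⟩ := Multiset.mem_map.1 ha
  exact lhs_ne_cat D (hU r hr) h

theorem ev_rest {R : Multiset D.O} (h : ∀ a ∈ R, D.N a = ∅) : Ev D.N R R := by
  have h1 : ∀ a ∈ R, Ch D.N a = {({a} : Multiset D.O)} := by
    intro a ha
    ext w
    simp [Ch, h a ha]
  rw [ev_det (w := fun a => {a}) h1]
  clear h1 h
  induction R using Multiset.induction_on with
  | empty => rfl
  | cons a A ih => rw [dtH_cons, ← ih, Multiset.singleton_add]

/-- the contents of the region in the configuration represented by `A` -/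
noncomputable def rg (A : Multiset D.O) : Multiset D.O := .cat ::ₘ A.filter (· ≠ .o)

/-- the environment in the configuration represented by `A` -/
noncomputable def en (A : Multiset D.O) : Multiset D.O := A.filter (· = .o)

theorem step_bwd {A A' : Multiset D.O} (hcat : .cat ∉ A)
    (h : SStep D.N D.S A A') : Step1 D (rg D A) (en D A) (rg D A') (en D A') ∧ .cat ∉ A' := by
  rcases h with ⟨hE, hidle⟩ | ⟨a, A0, w, X0, rfl, hw, hE, rfl⟩
  · obtain ⟨U, R, h1, h2, h3, h4, h5, h6⟩ := bwd D hE hcat
    obtain ⟨l1, l2, l3, _⟩ := fwd D U h1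
    obtain ⟨q1, q2⟩ := filter_lhs D fun r hr => nc_mem D (h1 r hr)
    refine ⟨⟨U, .cat ::ₘ R.filter (· ≠ .o), ?_, ?_, ?_, ?_, ?_, ?_⟩, h4⟩
    · intro r hr
      exact nc_mem D (h1 r hr)
    · rw [rg, l1, h2, Multiset.filter_add, q1, Multiset.add_cons]
    · intro r hr hle
      have hmem : r.lhs ∈ R := by
        have h7 : r.lhs ∈ (Ob.cat ::ₘ R.filter (· ≠ .o) : Multiset D.O) := by
          refine Multiset.mem_of_le hle ?_
          simp [Rule.left]
        rcases Multiset.mem_cons.1 h7 with h8 | h8
        · exact absurd h8 (lhs_ne_cat D hr)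
        · exact Multiset.mem_of_mem_filter h8
      have hN := h3 _ hmem
      rcases hr with ⟨_, v, h7, _⟩ | ⟨_, v, h7, _⟩
      · rw [hN] at h7
        exact absurd h7 (Set.notMem_empty _)
      · have := hidle r.lhs (by rw [h2]; exact Multiset.mem_add.2 (Or.inr hmem)) hN
        rw [this] at h7
        exact absurd h7 (Set.notMem_empty _)
    · exact l3.symm
    · rw [rg, l2, h5, add_zero, Multiset.cons_add, add_comm]
    · rw [en, en, h6, h2, Multiset.filter_add, q2, zero_add, add_comm]
  · rw [Multiset.mem_cons, not_or] at hcat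
    obtain ⟨U, R, h1, h2, h3, h4, h5, h6⟩ := bwd D hE hcat.2
    obtain ⟨l1, l2, l3, _⟩ := fwd D U h1
    obtain ⟨q1, q2⟩ := filter_lhs D fun r hr => nc_mem D (h1 r hr)
    set r0 : Rule D.O := ⟨some .cat, a, tg D w⟩ with hr0
    have hcc : CC D r0 := ⟨rfl, w, hw, rfl⟩
    have hao : a ≠ .o := lhs_ne_o D (cc_mem D hcc)
    refine ⟨⟨r0 ::ₘ U, R.filter (· ≠ .o), ?_, ?_, ?_, ?_, ?_, ?_⟩, ?_⟩
    · intro r hr
      rcases Multiset.mem_cons.1 hr with rfl | hr
      · exact cc_mem D hcc
      · exact nc_mem D (h1 r hr)
    · rw [rg, left_cons, l1, h2, Multiset.filter_cons_of_pos (p := fun x : D.O => x ≠ .o) _ hao, Multiset.filter_add, q1]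
      simp only [Rule.left, Rule.catalyst, hr0]
      rw [← Multiset.singleton_add, ← Multiset.singleton_add]
      simp only [add_assoc]
    · intro r hr hle
      have hmem : ∀ x ∈ r.left, x ∈ R := by
        intro x hx
        exact Multiset.mem_of_mem_filter (Multiset.mem_of_le hle hx)
      rcases hr with ⟨_, v, h7, _⟩ | ⟨hcr, v, h7, _⟩
      · have hN := h3 _ (hmem r.lhs (by simp [Rule.left]))
        rw [hN] at h7
        exact absurd h7 (Set.notMem_empty _)
      · have : Ob.cat ∈ R := hmem .cat (by simp [Rule.left, Rule.catalyst, hcr])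
        apply hcat.2
        rw [h2]
        exact Multiset.mem_add.2 (Or.inr this)
    · rw [made_cons, l3, made_inn D (r := r0) rfl, add_zero]
    · rw [rg, cats_cons, l2, made_cons, made_here D (r := r0) rfl, Multiset.filter_add, h5]
      simp only [Rule.catalyst, hr0]
      rw [← Multiset.singleton_add]
      abel
    · rw [en, en, made_cons, made_out D (r := r0) rfl, Multiset.filter_add, h6, h2,
        Multiset.filter_cons_of_neg (p := fun x : D.O => x = .o) _ hao, Multiset.filter_add, q2]
      abel
    · rw [Multiset.mem_add, not_or]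
      exact ⟨cat_notMem_S D hw, h4⟩

theorem cats_cc (U : Multiset (Rule D.O)) (hU : ∀ r ∈ U, CC D r) :
    left U = Multiset.replicate (Multiset.card U) .cat + U.map Rule.lhs := by
  induction U using Multiset.induction_on with
  | empty => rfl
  | cons r U ih =>
    rw [left_cons, ih fun r hr => hU r (Multiset.mem_cons_of_mem hr), Multiset.map_cons,
      Multiset.card_cons, Multiset.replicate_succ]
    have h := (hU r (Multiset.mem_cons_self _ _)).1
    simp only [Rule.left, Rule.catalyst, h]
    rw [← Multiset.singleton_add, ← Multiset.singleton_add]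
    abel

theorem left_add (U V : Multiset (Rule D.O)) : left (U + V) = left U + left V := by
  simp [left]

theorem en_ev (A : Multiset D.O) : ∀ a ∈ A.filter (· = .o), D.N a = ∅ := by
  intro a ha
  have := (Multiset.mem_filter.1 ha).2
  subst this
  rfl

theorem step_fwd {A B' E' : Multiset D.O} (hcat : .cat ∉ A)
    (h : Step1 D (rg D A) (en D A) B' E') :
    ∃ A', SStep D.N D.S A A' ∧ .cat ∉ A' ∧ B' = rg D A' ∧ E' = en D A' := by
  classical
  obtain ⟨U, rest, h1, h2, h3, _, h5, h6⟩ := h
  obtain ⟨Un, Uc, rfl, hn, hc⟩ : ∃ Un Uc, U = Un + Uc ∧ (∀ r ∈ Un, NC D r) ∧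
      (∀ r ∈ Uc, CC D r) := by
    refine ⟨U.filter (NC D ·), U.filter fun r => ¬ NC D r, (Multiset.filter_add_not _ _).symm,
      fun r hr => (Multiset.mem_filter.1 hr).2, fun r hr => ?_⟩
    obtain ⟨hr1, hr2⟩ := Multiset.mem_filter.1 hr
    rcases h1 r hr1 with h | h
    · exact absurd h hr2
    · exact h
  have hA : A = A.filter (· ≠ .o) + A.filter (· = .o) := by
    rw [add_comm]
    exact (Multiset.filter_add_not _ _).symm
  obtain ⟨l1, l2, l3, X, l4, l5, l6, l7⟩ := fwd D Un hn
  have hcatn : Multiset.count .cat (Un.map Rule.lhs) = 0 :=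
    Multiset.count_eq_zero.2 (cat_notMem_lhs D fun r hr => nc_mem D (hn r hr))
  have hcatc : Multiset.count .cat (Uc.map Rule.lhs) = 0 :=
    Multiset.count_eq_zero.2 (cat_notMem_lhs D fun r hr => cc_mem D (hc r hr))
  have hcat' : Multiset.count .cat (A.filter (· ≠ .o)) = 0 :=
    Multiset.count_eq_zero.2 fun h => hcat (Multiset.mem_of_mem_filter h)
  have hcount : Multiset.card Uc + Multiset.count .cat rest = 1 := by
    have := congrArg (Multiset.count .cat) h2
    rw [rg, Multiset.count_cons_self, hcat', left_add, l1, cats_cc D Uc hc] at this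
    simp only [Multiset.count_add, Multiset.count_replicate_self, hcatn, hcatc] at this
    omega
  have hNrest : ∀ a ∈ rest, a ≠ .cat → D.N a = ∅ := by
    intro a ha hac
    by_contra hcon
    obtain ⟨v, hv⟩ := Set.nonempty_iff_ne_empty.2 hcon
    refine h3 ⟨none, a, tg D v⟩ (Or.inl ⟨rfl, v, hv, rfl⟩) ?_
    simp only [Rule.left, Rule.catalyst, zero_add, Multiset.singleton_le]
    exact ha
  rcases Nat.eq_zero_or_pos (Multiset.card Uc) with hz | hz
  · rw [Multiset.card_eq_zero] at hz
    subst hz
    rw [Multiset.card_zero, zero_add] at hcount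
    have hmem : Ob.cat ∈ rest := Multiset.count_pos.1 (by omega)
    obtain ⟨R, rfl⟩ := Multiset.exists_cons_of_mem hmem
    have hRc : Ob.cat ∉ R := by
      rw [Multiset.count_cons_self] at hcount
      exact Multiset.count_eq_zero.1 (by omega)
    rw [add_zero] at h2
    have hA1 : A.filter (· ≠ .o) = Un.map Rule.lhs + R := by
      rw [rg, l1, Multiset.add_cons] at h2
      exact (Multiset.cons_inj_right _).1 h2
    have hNR : ∀ a ∈ R, D.N a = ∅ := fun a ha =>
      hNrest a (Multiset.mem_cons_of_mem ha) (fun h => hRc (h ▸ ha))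
    have hRo : ∀ a ∈ R, a ≠ .o := by
      intro a ha
      have : a ∈ A.filter (· ≠ .o) := by rw [hA1]; exact Multiset.mem_add.2 (Or.inr ha)
      exact (Multiset.mem_filter.1 this).2
    refine ⟨X + (R + A.filter (· = .o)), Or.inl ⟨?_, ?_⟩, ?_, ?_, ?_⟩
    · conv => lhs; rw [hA, hA1, add_assoc]
      exact ev_add.2 ⟨X, _, l4, ev_add.2 ⟨R, _, ev_rest D hNR, ev_rest D (en_ev D A), rfl⟩, rfl⟩
    · intro a ha hN
      rw [hA, hA1] at ha
      rcases Multiset.mem_add.1 ha with ha | ha
      · rcases Multiset.mem_add.1 ha with ha | ha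
        · obtain ⟨r, hr, rfl⟩ := Multiset.mem_map.1 ha
          obtain ⟨_, v, hv, _⟩ := hn r hr
          rw [hN] at hv
          exact absurd hv (Set.notMem_empty _)
        · by_contra hcon
          obtain ⟨v, hv⟩ := Set.nonempty_iff_ne_empty.2 hcon
          refine h3 ⟨some .cat, a, tg D v⟩ (Or.inr ⟨rfl, v, hv, rfl⟩) ?_
          simp only [Rule.left, Rule.catalyst, Multiset.singleton_add]
          exact Multiset.cons_le_cons _ (Multiset.singleton_le.2 ha)
      · have := (Multiset.mem_filter.1 ha).2
        subst this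
        rfl
    · simp only [Multiset.mem_add, not_or]
      exact ⟨l5, hRc, fun h => hcat (Multiset.mem_of_mem_filter h)⟩
    · rw [h5, add_zero, l2, l6, rg]
      simp only [Multiset.filter_add]
      rw [Multiset.filter_eq_self.2 hRo, Multiset.filter_filter]
      rw [Multiset.filter_eq_nil.2 (fun a _ => by tauto : ∀ a ∈ A, ¬ (a ≠ .o ∧ a = .o))]
      rw [← Multiset.singleton_add, ← Multiset.singleton_add]
      abel
    · rw [h6, add_zero, l7, en, en]
      simp only [Multiset.filter_add]
      rw [Multiset.filter_eq_nil.2 hRo, Multiset.filter_filter]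
      simp only [and_self]
      abel
  · obtain ⟨r0, rfl⟩ := Multiset.card_eq_one.1 (show Multiset.card Uc = 1 by omega)
    rw [Multiset.card_singleton] at hcount
    have hRc : Ob.cat ∉ rest := Multiset.count_eq_zero.1 (by omega)
    obtain ⟨hr1, w, hw, hr2⟩ := hc r0 (Multiset.mem_singleton_self _)
    have hA1 : A.filter (· ≠ .o) = r0.lhs ::ₘ (Un.map Rule.lhs + rest) := by
      rw [rg, left_add, l1, cats_cc D _ hc] at h2
      simp only [Multiset.card_singleton, Multiset.replicate_one, Multiset.map_singleton] at h2
      rw [← Multiset.cons_inj_right Ob.cat, h2, ← Multiset.singleton_add, ← Multiset.singleton_add]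
      abel
    have hNR : ∀ a ∈ rest, D.N a = ∅ := fun a ha => hNrest a ha (fun h => hRc (h ▸ ha))
    have hRo : ∀ a ∈ rest, a ≠ .o := by
      intro a ha
      have : a ∈ A.filter (· ≠ .o) := by
        rw [hA1]
        exact Multiset.mem_cons_of_mem (Multiset.mem_add.2 (Or.inr ha))
      exact (Multiset.mem_filter.1 this).2
    refine ⟨w + (X + (rest + A.filter (· = .o))), Or.inr ⟨r0.lhs,
      Un.map Rule.lhs + (rest + A.filter (· = .o)), w, _, ?_, hw, ?_, rfl⟩, ?_, ?_, ?_⟩
    · conv => lhs; rw [hA, hA1]
      rw [Multiset.cons_add, add_assoc]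
    · exact ev_add.2 ⟨X, _, l4, ev_add.2 ⟨rest, _, ev_rest D hNR, ev_rest D (en_ev D A), rfl⟩,
        rfl⟩
    · simp only [Multiset.mem_add, not_or]
      exact ⟨cat_notMem_S D hw, l5, hRc, fun h => hcat (Multiset.mem_of_mem_filter h)⟩
    · have e1 : cats (Un + {r0}) = {.cat} := by
        have : cats (Un + {r0}) = cats Un + r0.catalyst := by simp [cats]
        rw [this, l2, zero_add]
        simp [Rule.catalyst, hr1]
      have e2 : made (Un + {r0}) .here = X.filter (· ≠ .o) + w.filter (· ≠ .o) := by
        have : made (Un + {r0}) .here = made Un .here + r0.made .here := by simp [made]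
        rw [this, l6, made_here D hr2]
      rw [h5, e1, e2, rg]
      simp only [Multiset.filter_add]
      rw [Multiset.filter_eq_self.2 hRo, Multiset.filter_filter]
      rw [Multiset.filter_eq_nil.2 (fun a _ => by tauto : ∀ a ∈ A, ¬ (a ≠ .o ∧ a = .o))]
      rw [← Multiset.singleton_add]
      abel
    · have e2 : made (Un + {r0}) .out = X.filter (· = .o) + w.filter (· = .o) := by
        have : made (Un + {r0}) .out = made Un .out + r0.made .out := by simp [made]
        rw [this, l7, made_out D hr2]
      rw [h6, e2, en, en]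
      simp only [Multiset.filter_add]
      rw [Multiset.filter_eq_nil.2 hRo, Multiset.filter_filter]
      simp only [and_self]
      abel

theorem halting_iff {A : Multiset D.O} (hcat : .cat ∉ A) :
    (psys D).Halting (mkc D (rg D A) (en D A)) ↔ SHalt D.N D.S A := by
  constructor
  · intro h a ha
    by_cases hao : a = .o
    · subst hao
      exact ⟨rfl, rfl⟩
    have hmem : a ∈ A.filter (· ≠ .o) := Multiset.mem_filter.2 ⟨ha, hao⟩
    constructor
    · by_contra hcon
      obtain ⟨v, hv⟩ := Set.nonempty_iff_ne_empty.2 hcon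
      have hr : (⟨none, a, tg D v⟩ : Rule D.O) ∈ rls D := Or.inl ⟨rfl, v, hv, rfl⟩
      refine h () _ ⟨hr, fun h => absurd h (no_inn D hr)⟩ ?_
      show Rule.left _ ≤ rg D A
      simp only [Rule.left, Rule.catalyst, zero_add, Multiset.singleton_le, rg]
      exact Multiset.mem_cons_of_mem hmem
    · by_contra hcon
      obtain ⟨v, hv⟩ := Set.nonempty_iff_ne_empty.2 hcon
      have hr : (⟨some .cat, a, tg D v⟩ : Rule D.O) ∈ rls D := Or.inr ⟨rfl, v, hv, rfl⟩
      refine h () _ ⟨hr, fun h => absurd h (no_inn D hr)⟩ ?_
      show Rule.left _ ≤ rg D A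
      simp only [Rule.left, Rule.catalyst, Multiset.singleton_add, rg]
      exact Multiset.cons_le_cons _ (Multiset.singleton_le.2 hmem)
  · intro h _ (r : Rule D.O) hr hle
    have hr' : r ∈ rls D := hr.1
    have hle' : r.left ≤ rg D A := hle
    have hmem : r.lhs ∈ A := by
      have h7 : r.lhs ∈ rg D A := Multiset.mem_of_le hle' (by simp [Rule.left])
      rcases Multiset.mem_cons.1 h7 with h8 | h8
      · exact absurd h8 (lhs_ne_cat D hr')
      · exact Multiset.mem_of_mem_filter h8
    obtain ⟨h8, h9⟩ := h _ hmem
    rcases hr' with ⟨_, v, h7, _⟩ | ⟨_, v, h7, _⟩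
    · rw [h8] at h7
      exact absurd h7 (Set.notMem_empty _)
    · rw [h9] at h7
      exact absurd h7 (Set.notMem_empty _)

theorem value_eq (A : Multiset D.O) :
    (psys D).value (mkc D (rg D A) (en D A)) = A.count .o := by
  rw [Multiset.count_eq_card_filter_eq]
  show Multiset.card (en D A) = _
  rw [en]
  congr 1
  exact Multiset.filter_congr fun x _ => eq_comm

theorem eta (Γ : (psys D).Config) : Γ = mkc D (Γ.reg ()) Γ.env := rfl

theorem path_run {Γ H : (psys D).Config} (h : Relation.ReflTransGen (psys D).Step Γ H)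
    (hH : (psys D).Halting H) :
    ∀ A, .cat ∉ A → Γ = mkc D (rg D A) (en D A) → D.Acc A ((psys D).value H) := by
  induction h using Relation.ReflTransGen.head_induction_on with
  | refl =>
    rintro A hA rfl
    exact ⟨0, (halting_iff D hA).1 hH, (value_eq D A).symm⟩
  | @head Γ c h1 _ ih =>
    rintro A hA rfl
    rw [eta D c] at h1 ih
    obtain ⟨A', h2, h3, h4, h5⟩ := step_fwd D hA ((step1_iff D _ _ _ _).1 h1)
    exact (ih A' h3 (by rw [← h4, ← h5])).step h2

theorem run_path {s n : ℕ} : ∀ {A : Multiset D.O}, .cat ∉ A → D.Run s A n →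
    ∃ H, Relation.ReflTransGen (psys D).Step (mkc D (rg D A) (en D A)) H ∧ (psys D).Halting H ∧
      (psys D).value H = n := by
  induction s with
  | zero =>
    rintro A hA ⟨h1, h2⟩
    exact ⟨_, Relation.ReflTransGen.refl, (halting_iff D hA).2 h1, by rw [value_eq, h2]⟩
  | succ s ih =>
    rintro A hA ⟨A', h1, h2⟩
    obtain ⟨h3, h4⟩ := step_bwd D hA h1
    obtain ⟨H, h5, h6, h7⟩ := ih h4 h2
    exact ⟨H, Relation.ReflTransGen.head ((step1_iff D _ _ _ _).2 h3) h5, h6, h7⟩

theorem start_eq : (psys D).start = mkc D (rg D D.start) (en D D.start) ∧ .cat ∉ D.start := by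
  have hmem : ∀ a ∈ D.start, a ≠ .o ∧ a ≠ .cat := by
    intro a ha
    unfold Data.start at ha
    rcases D.mem_cf.1 ha with ⟨p, _, rfl⟩ | ⟨k, _, hk⟩ | ⟨h, _⟩ | ⟨h, _⟩ | ⟨h, _⟩ | ⟨h, _⟩ |
      ⟨h, _⟩ | ⟨h, _⟩ | ⟨h, _⟩
    · exact ⟨by simp, by simp⟩
    · exact absurd rfl hk
    all_goals exact absurd rfl h
  constructor
  · have e1 : D.start.filter (fun x : D.O => x ≠ .o) = D.start :=
      Multiset.filter_eq_self.2 fun a ha => (hmem a ha).1
    have e2 : D.start.filter (fun x : D.O => x = .o) = 0 :=
      Multiset.filter_eq_nil.2 fun a ha => (hmem a ha).1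
    rw [rg, en, e1, e2]
    rfl
  · exact fun h => (hmem _ h).2 rfl

theorem psys_N : (psys D).N = {n | D.Acc D.start n} := by
  obtain ⟨h1, h2⟩ := start_eq D
  ext n
  constructor
  · rintro ⟨H, h3, h4, rfl⟩
    exact path_run D h3 h4 D.start h2 h1
  · rintro ⟨s, h3⟩
    obtain ⟨H, h4, h5, h6⟩ := run_path D h2 h3
    exact ⟨H, by rw [h1]; exact h4, h5, h6⟩

/-- **Main theorem.** Every recursively enumerable set of natural numbers is generated by a P
system with one membrane (degree 1) and exactly one catalyst. -/
theorem result (S : Set ℕ) (hS : REPred fun n => n ∈ S) :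
    ∃ P : PSystem, P.degree = 1 ∧ P.numCat = 1 ∧ P.N = S := by
  obtain ⟨T, K, fT, fK, dK, A, d, em, hc, hs⟩ := exists_cs S hS
  let D : Data :=
    { T := T
      K := K
      finT := fT
      finK := fK
      decK := dK
      A := A
      d := d
      em := em
      κ := Fintype.card K
      e := fun k => Fintype.equivFin K k
      e_inj := fun a b h => (Fintype.equivFin K).injective (Fin.ext h)
      e_lt := fun k => (Fintype.equivFin K k).2
      e_surj := fun j hj => ⟨(Fintype.equivFin K).symm ⟨j, hj⟩, by simp⟩ }
  refine ⟨psys D, ?_, ?_, ?_⟩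
  · show Fintype.card Unit = 1
    simp
  · obtain ⟨_, h2⟩ := start_eq D
    have h3 : (psys D).numCat = ∑ _h : Unit, @Multiset.countP D.O (· ∈ ({.cat} : Set D.O))
        (fun _ => Classical.propDecidable _) (.cat ::ₘ D.start) := rfl
    rw [h3, Fintype.sum_unique, Multiset.countP_cons_of_pos _ (Set.mem_singleton _)]
    rw [Multiset.countP_eq_zero.2]
    intro a ha h4
    rw [Set.mem_singleton_iff] at h4
    exact h2 (h4 ▸ ha)
  · rw [psys_N]
    ext n
    constructor
    · rintro ⟨s, h⟩
      obtain ⟨B, w, t, h1, h2, h3⟩ := D.sound h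
      exact hs n B w t h1 h2 h3
    · intro hn
      obtain ⟨B, t, h1, h2, h3⟩ := hc n hn
      exact D.complete h1 h2 h3

end Pool.Agent.Results.MP_280e70_lc.OneCatalystUniversal
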